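import Mathlib

/-!
# Rotor walks on regular trees; the uniform shift model
-/

set_option autoImplicit false

namespace Q294.Rotor

open MeasureTheory Filter

/-- The vertices of the rooted `d`-ary tree: the root is `[]` and the `i`-th child of `v` is
`i :: v`. -/
abbrev Vert (d : ℕ) := List (Fin d)

/-- The vertex at which a rotor at `v` points: the value `none` stands for the parent (the root has a
self-loop, its parent is the root itself), the value `some i` for the `i`-th child. -/
def target {d : ℕ} (v : Vert d) : Option (Fin d) → Vert d
  | none => v.tail
  | some i => i :: v

/-- The rotor walk for the configuration `c`: its position and the numbers of the departures from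
all vertices at time `n`. The `m`-th departure from `v` (counted from `0`) is to the vertex at which
`c v m` points. -/
def state {d : ℕ} (c : Vert d → ℕ → Option (Fin d)) : ℕ → Vert d × (Vert d → ℕ)
  | 0 => ([], fun _ => 0)
  | n + 1 => (target (state c n).1 (c (state c n).1 ((state c n).2 (state c n).1)),
      Function.update (state c n).2 (state c n).1 ((state c n).2 (state c n).1 + 1))

/-- The position of the rotor walk at time `n`. -/
def pos {d : ℕ} (c : Vert d → ℕ → Option (Fin d)) (n : ℕ) : Vert d := (state c n).1

/-- The rotor walk is recurrent if it visits the root infinitely many times. -/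
def Recurrent {d : ℕ} (c : Vert d → ℕ → Option (Fin d)) : Prop := ∃ᶠ n in atTop, pos c n = []

/-- A rotor sequence is non-degenerate if it takes every value infinitely often. -/
def NonDegenerate {d : ℕ} (a : ℕ → Option (Fin d)) : Prop := ∀ r, ∃ᶠ n in atTop, a n = r

/-- The configuration of the shift model with the shifts `k v`. -/
def shifted {d L : ℕ} (a : ℕ → Option (Fin d)) (k : Vert d → Fin L) (v : Vert d) (n : ℕ) :
    Option (Fin d) :=
  a (n + k v)

/-- The law of the shifts in the uniform shift model: independent and uniform on
`{0, …, L - 1}`. -/
noncomputable def shiftLaw (d L : ℕ) [NeZero L] : Measure (Vert d → Fin L) :=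
  Measure.infinitePi fun _ => (PMF.uniformOfFintype (Fin L)).toMeasure

end Q294.Rotor
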