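import Pool.Agent.Q294.Rotor.Defs

/-!
# Rotor walks: a recursive bound for the numbers of visits
-/

set_option autoImplicit false

namespace Q294.Rotor

open MeasureTheory Filter

variable {d : ℕ}

/-- The number of departures from `v` before time `n`. -/
def cnt (c : Vert d → ℕ → Option (Fin d)) (n : ℕ) (v : Vert d) : ℕ := (state c n).2 v

/-- The number of zeros (pointers to the parent) among the first `q` rotors. -/
def zc (b : ℕ → Option (Fin d)) (q : ℕ) : ℕ := Nat.count (fun m => b m = none) q

/-- The number of pointers to the child `i` among the first `q` rotors. -/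
def oc (b : ℕ → Option (Fin d)) (i : Fin d) (q : ℕ) : ℕ := Nat.count (fun m => b m = some i) q

theorem zc_succ (b : ℕ → Option (Fin d)) (q : ℕ) :
    zc b (q + 1) = zc b q + if b q = none then 1 else 0 := Nat.count_succ _ _

theorem oc_succ (b : ℕ → Option (Fin d)) (i : Fin d) (q : ℕ) :
    oc b i (q + 1) = oc b i q + if b q = some i then 1 else 0 := Nat.count_succ _ _

theorem zc_add_sum (b : ℕ → Option (Fin d)) (q : ℕ) : zc b q + ∑ i, oc b i q = q := by
  induction q with
  | zero => simp [zc, oc]
  | succ q ih =>
    rw [zc_succ]
    simp only [oc_succ, Finset.sum_add_distrib]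
    cases h : b q with
    | none => simp; omega
    | some j => simp; omega

theorem zc_mono (b : ℕ → Option (Fin d)) : Monotone (zc b) := Nat.count_monotone _

theorem oc_mono (b : ℕ → Option (Fin d)) (i : Fin d) : Monotone (oc b i) := Nat.count_monotone _

theorem zc_le (b : ℕ → Option (Fin d)) (q : ℕ) : zc b q ≤ q := Nat.count_le _

variable {c : Vert d → ℕ → Option (Fin d)}

theorem cnt_zero (v : Vert d) : cnt c 0 v = 0 := rfl

theorem pos_zero : pos c 0 = [] := rfl

theorem pos_succ (n : ℕ) : pos c (n + 1) = target (pos c n) (c (pos c n) (cnt c n (pos c n))) := rfl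

theorem cnt_succ_self (n : ℕ) : cnt c (n + 1) (pos c n) = cnt c n (pos c n) + 1 := by
  show Function.update (state c n).2 (state c n).1 ((state c n).2 (state c n).1 + 1) _ = _
  exact Function.update_self _ _ _

theorem cnt_succ_of_ne {n : ℕ} {v : Vert d} (h : v ≠ pos c n) :
    cnt c (n + 1) v = cnt c n v := by
  show Function.update (state c n).2 (state c n).1 ((state c n).2 (state c n).1 + 1) _ = _
  exact Function.update_of_ne h _ _

/-- Balance of the entries into and the exits from a subtree. -/
theorem balance (n : ℕ) (i : Fin d) (u : Vert d) :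
    oc (c u) i (cnt c n u) = zc (c (i :: u)) (cnt c n (i :: u)) +
      if (i :: u) <:+ pos c n then 1 else 0 := by
  induction n generalizing i u with
  | zero => simp [cnt_zero, pos_zero, oc, zc]
  | succ n ih =>
    have ih' := ih i u
    set p := pos c n with hp
    have hps := pos_succ (c := c) n
    rw [← hp] at hps
    have hself : cnt c (n + 1) p = cnt c n p + 1 := cnt_succ_self n
    have hne : ∀ v, v ≠ p → cnt c (n + 1) v = cnt c n v := fun v hv => cnt_succ_of_ne hv
    have hnot : ∀ (j : Fin d) (w : Vert d), ¬ (j :: w) <:+ w := by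
      intro j w h
      have := h.length_le
      simp at this
    -- the change of the number of entries
    have hL : oc (c u) i (cnt c (n + 1) u) = oc (c u) i (cnt c n u) +
        if u = p ∧ c p (cnt c n p) = some i then 1 else 0 := by
      by_cases hu : u = p
      · subst hu
        rw [hself, oc_succ]
        simp
      · rw [hne u hu]
        simp [hu]
    have hR : zc (c (i :: u)) (cnt c (n + 1) (i :: u)) = zc (c (i :: u)) (cnt c n (i :: u)) +
        if i :: u = p ∧ c p (cnt c n p) = none then 1 else 0 := by
      by_cases hu : i :: u = p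
      · rw [hu, hself, zc_succ]
        simp
      · rw [hne _ hu]
        simp [hu]
    rw [hL, hR, hps]
    cases hr : c p (cnt c n p) with
    | none =>
      simp only [target, reduceCtorEq, and_false, if_false, and_true]
      by_cases hu : i :: u = p
      · rw [← hu] at ih' ⊢
        have h1 : ¬ (i :: u) <:+ u := hnot i u
        simp only [List.suffix_rfl, if_true, List.tail_cons, h1, if_false] at ih' ⊢
        omega
      · have h2 : (i :: u) <:+ p ↔ (i :: u) <:+ p.tail := by
          cases hpc : p with
          | nil => simp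
          | cons x t =>
            rw [List.suffix_cons_iff, List.tail_cons]
            constructor
            · rintro (h | h)
              · exact absurd (h.trans hpc.symm) hu
              · exact h
            · exact Or.inr
        simp only [hu, if_false, ← h2]
        omega
    | some j =>
      have e : target p (some j) = j :: p := rfl
      rw [e]
      simp only [reduceCtorEq, and_false, if_false, Option.some.injEq]
      by_cases hu : i = j ∧ u = p
      · obtain ⟨hij, hup⟩ := hu
        have h1 : ¬ (i :: u) <:+ p := by rw [hup]; exact hnot i p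
        have h2 : (i :: u) <:+ (j :: p) := by rw [hij, hup]
        rw [if_neg h1] at ih'
        rw [if_pos h2, if_pos ⟨hup, hij.symm⟩]
        omega
      · have h2 : (i :: u) <:+ (j :: p) ↔ (i :: u) <:+ p := by
          rw [List.suffix_cons_iff]
          constructor
          · rintro (h | h)
            · exfalso
              rw [List.cons.injEq] at h
              exact hu h
            · exact h
          · exact Or.inr
        have h3 : ¬ (u = p ∧ j = i) := fun h => hu ⟨h.2.symm, h.1⟩
        simp only [h2, h3, if_false]
        omega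

theorem exists_visit {n q : ℕ} {v : Vert d} (h : q < cnt c n v) :
    ∃ m < n, pos c m = v ∧ cnt c m v = q := by
  induction n with
  | zero => rw [cnt_zero] at h; omega
  | succ n ih =>
    by_cases hv : v = pos c n
    · subst hv
      rw [cnt_succ_self] at h
      rcases Nat.lt_or_ge q (cnt c n (pos c n)) with h1 | h1
      · obtain ⟨m, hm, h2⟩ := ih h1
        exact ⟨m, by omega, h2⟩
      · exact ⟨n, Nat.lt_succ_self n, rfl, by omega⟩
    · rw [cnt_succ_of_ne hv] at h
      obtain ⟨m, hm, h2⟩ := ih h
      exact ⟨m, by omega, h2⟩

/-- The number of rotors used until the `U`-th zero. -/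
noncomputable def idx (b : ℕ → Option (Fin d)) (U : ℕ) : ℕ := sInf {q | U ≤ zc b q}

theorem idx_zero (b : ℕ → Option (Fin d)) : idx b 0 = 0 := by
  unfold idx
  exact Nat.sInf_eq_zero.2 (Or.inl (Nat.zero_le _))

theorem idx_le {b : ℕ → Option (Fin d)} {U q : ℕ} (h : U ≤ zc b q) : idx b U ≤ q :=
  Nat.sInf_le h

/-- There are infinitely many zeros. -/
def Many (b : ℕ → Option (Fin d)) : Prop := ∀ U, ∃ q, U ≤ zc b q

theorem le_zc_idx {b : ℕ → Option (Fin d)} (hb : Many b) (U : ℕ) : U ≤ zc b (idx b U) :=
  Nat.sInf_mem (s := {q | U ≤ zc b q}) (hb U)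

theorem zc_idx {b : ℕ → Option (Fin d)} (hb : Many b) (U : ℕ) : zc b (idx b U) = U := by
  refine le_antisymm ?_ (le_zc_idx hb U)
  rcases Nat.eq_zero_or_pos (idx b U) with h | h
  · rw [h]; simp [zc]
  · obtain ⟨q, hq⟩ : ∃ q, idx b U = q + 1 := ⟨idx b U - 1, by omega⟩
    have h1 : ¬ U ≤ zc b q := fun h1 => by
      have := idx_le h1
      omega
    rw [hq, zc_succ]
    split_ifs <;> omega

/-- The bound for the numbers of visits. -/
noncomputable def Bd (c : Vert d → ℕ → Option (Fin d)) (J : ℕ) : Vert d → ℕ
  | [] => J
  | i :: u => oc (c u) i (idx (c u) (Bd c J u))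

theorem cnt_le (hc : ∀ v, Many (c v)) {J : ℕ} (h0 : ∀ n, cnt c n [] ≤ idx (c []) J)
    (v : Vert d) (n : ℕ) : cnt c n v ≤ idx (c v) (Bd c J v) := by
  induction v generalizing n with
  | nil => exact h0 n
  | cons i u ih =>
    have hE : ∀ m, oc (c u) i (cnt c m u) ≤ Bd c J (i :: u) := fun m => oc_mono _ _ (ih m)
    by_contra hcon
    push Not at hcon
    obtain ⟨m, -, hm, hq⟩ := exists_visit hcon
    have h1 := balance (c := c) m i u
    rw [hm, if_pos List.suffix_rfl, hq, zc_idx (hc _)] at h1
    have := hE m
    omega

/-- If the recursive bounds vanish for all but finitely many vertices, the rotor walk is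
recurrent. -/
theorem recurrent_of_finite (hc : ∀ v, Many (c v)) (hfin : ∀ J, {v | Bd c J v ≠ 0}.Finite) :
    Recurrent c := by
  classical
  intro hcon
  rw [eventually_atTop] at hcon
  obtain ⟨N, hN⟩ := hcon
  -- the number of departures from the root is bounded
  have hC : ∀ n, cnt c n [] ≤ cnt c N [] := by
    have hmono : ∀ n v, cnt c n v ≤ cnt c (n + 1) v := by
      intro n v
      by_cases hv : v = pos c n
      · subst hv; rw [cnt_succ_self]; omega
      · rw [cnt_succ_of_ne hv]
    have hmono2 : ∀ v, Monotone fun n => cnt c n v := fun v => monotone_nat_of_le_succ fun n =>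
      hmono n v
    intro n
    rcases le_total n N with h | h
    · exact hmono2 [] h
    · obtain ⟨k, rfl⟩ := Nat.exists_eq_add_of_le h
      clear h
      induction k with
      | zero => exact le_rfl
      | succ k ih =>
        rw [← add_assoc, cnt_succ_of_ne fun h => hN (N + k) (Nat.le_add_right _ _) h.symm]
        exact ih
  set J := cnt c N [] with hJ
  have h0 : ∀ n, cnt c n [] ≤ idx (c []) J := fun n =>
    (hC n).trans ((le_zc_idx (hc []) J).trans (zc_le _ _))
  have hle := cnt_le hc h0
  set F : Finset (Vert d) := (hfin J).toFinset with hF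
  have hout : ∀ v ∉ F, ∀ n, cnt c n v = 0 := by
    intro v hv n
    have h1 : Bd c J v = 0 := by
      by_contra h
      exact hv ((hfin J).mem_toFinset.2 h)
    have h2 := hle v n
    rw [h1, idx_zero] at h2
    omega
  have hsum : ∀ n, ∑ v ∈ F, cnt c n v = n := by
    intro n
    induction n with
    | zero => simp [cnt_zero]
    | succ n ih =>
      have hmem : pos c n ∈ F := by
        by_contra h
        have := hout _ h (n + 1)
        rw [cnt_succ_self] at this
        omega
      rw [← Finset.add_sum_erase _ _ hmem, cnt_succ_self]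
      rw [← Finset.add_sum_erase _ _ hmem] at ih
      have : ∑ v ∈ F.erase (pos c n), cnt c (n + 1) v = ∑ v ∈ F.erase (pos c n), cnt c n v :=
        Finset.sum_congr rfl fun v hv => cnt_succ_of_ne (Finset.ne_of_mem_erase hv)
      omega
  have h3 := hsum (∑ v ∈ F, idx (c v) (Bd c J v) + 1)
  have h4 : ∑ v ∈ F, cnt c (∑ v ∈ F, idx (c v) (Bd c J v) + 1) v ≤
      ∑ v ∈ F, idx (c v) (Bd c J v) := Finset.sum_le_sum fun v _ => hle v _
  omega

end Q294.Rotor
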