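import Pool.Agent.Q294.Rotor.Det

/-!
# A criterion for recurrence in the uniform shift model
-/

set_option autoImplicit false

namespace Q294.Rotor

open MeasureTheory Filter ProbabilityTheory
open scoped ENNReal

variable {d L : ℕ} {a : ℕ → Option (Fin d)}

/-- The number of pointers to the child `i` before the `U`-th zero, after a shift by `k`. -/
noncomputable def ch (a : ℕ → Option (Fin d)) (k : ℕ) (i : Fin d) (U : ℕ) : ℕ :=
  oc (fun n => a (n + k)) i (idx (fun n => a (n + k)) U)

theorem Bd_cons (k : Vert d → Fin L) (J : ℕ) (i : Fin d) (v : Vert d) :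
    Bd (shifted a k) J (i :: v) = ch a (k v) i (Bd (shifted a k) J v) := rfl

/-- The bound at `v` depends only on the rotors at the ancestors of `v`. -/
theorem Bd_congr {k k' : Vert d → Fin L} {J : ℕ} {v : Vert d}
    (h : ∀ u, u <:+ v → u ≠ v → k u = k' u) :
    Bd (shifted a k) J v = Bd (shifted a k') J v := by
  induction v with
  | nil => rfl
  | cons i u ih =>
    have hu : k u = k' u := h u (List.suffix_cons i u) (by
      intro he
      have := congrArg List.length he
      simp at this)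
    have hB : Bd (shifted a k) J u = Bd (shifted a k') J u := ih fun w hw hne =>
      h w (hw.trans (List.suffix_cons i u)) (by
        intro he
        have h1 := hw.length_le
        rw [he] at h1
        simp at h1)
    rw [Bd_cons, Bd_cons, hu, hB]

/-- The finite set of the proper ancestors. -/
def anc (v : Vert d) : Finset (Vert d) := v.tails.toFinset.erase v

theorem mem_anc {u v : Vert d} : u ∈ anc v ↔ u <:+ v ∧ u ≠ v := by
  unfold anc
  rw [Finset.mem_erase, List.mem_toFinset, List.mem_tails, and_comm]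

variable [NeZero L]

instance : IsProbabilityMeasure (shiftLaw d L) := by
  unfold shiftLaw; infer_instance

/-- Extension of a function on the ancestors. -/
def ext (v : Vert d) (w : (u : anc v) → Fin L) : Vert d → Fin L := fun u =>
  if h : u ∈ anc v then w ⟨u, h⟩ else 0

theorem Bd_factor (J : ℕ) (v : Vert d) (k : Vert d → Fin L) :
    Bd (shifted a k) J v = Bd (shifted a (ext v fun u => k u)) J v := by
  refine Bd_congr fun u hu hne => ?_
  unfold ext
  rw [dif_pos (mem_anc.2 ⟨hu, hne⟩)]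

theorem measurable_Bd (a : ℕ → Option (Fin d)) (J : ℕ) (v : Vert d) :
    Measurable fun k : Vert d → Fin L => Bd (shifted a k) J v := by
  have h1 : Measurable fun w : (u : anc v) → Fin L => Bd (shifted a (ext v w)) J v :=
    measurable_of_countable _
  have h2 : Measurable fun k : Vert d → Fin L => fun u : anc v => k u :=
    measurable_pi_lambda _ fun u => measurable_pi_apply _
  have h3 := h1.comp h2
  have e : ((fun w : (u : anc v) → Fin L => Bd (shifted a (ext v w)) J v) ∘
      fun (k : Vert d → Fin L) (u : anc v) => k u) = fun k => Bd (shifted a k) J v := by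
    funext k
    exact (Bd_factor J v k).symm
  rwa [e] at h3

theorem indep_Bd (a : ℕ → Option (Fin d)) (J : ℕ) (v : Vert d) :
    IndepFun (fun k : Vert d → Fin L => Bd (shifted a k) J v) (fun k => k v) (shiftLaw d L) := by
  classical
  have hi : iIndepFun (fun (u : Vert d) (k : Vert d → Fin L) => k u) (shiftLaw d L) :=
    iIndepFun_infinitePi (X := fun _ x => x) fun _ => measurable_id
  have hd : Disjoint (anc v) {v} := by
    rw [Finset.disjoint_singleton_right, mem_anc]
    exact fun h => h.2 rfl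
  have h2 := hi.indepFun_finset (anc v) {v} hd fun i => measurable_pi_apply i
  have h1 : Measurable fun w : (u : anc v) → Fin L => Bd (shifted a (ext v w)) J v :=
    measurable_of_countable _
  have hψ : Measurable fun w : (u : ({v} : Finset (Vert d))) → Fin L =>
      w ⟨v, Finset.mem_singleton_self v⟩ := measurable_pi_apply _
  have h3 := h2.comp h1 hψ
  have e : ((fun w : (u : anc v) → Fin L => Bd (shifted a (ext v w)) J v) ∘
      fun (k : Vert d → Fin L) (u : anc v) => k u) = fun k => Bd (shifted a k) J v := by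
    funext k
    exact (Bd_factor J v k).symm
  rw [e] at h3
  exact h3

theorem measurableSet_shift (v : Vert d) (x : Fin L) :
    MeasurableSet {k : Vert d → Fin L | k v = x} := by
  have h : Measurable fun k : Vert d → Fin L => k v := measurable_pi_apply v
  exact h (measurableSet_singleton x)

theorem prob_shift (v : Vert d) (x : Fin L) : shiftLaw d L {k | k v = x} = (L : ℝ≥0∞)⁻¹ := by
  have h : (shiftLaw d L).map (fun k => k v) = (PMF.uniformOfFintype (Fin L)).toMeasure :=
    Measure.infinitePi_map_eval _ v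
  have h2 : shiftLaw d L {k | k v = x} = (shiftLaw d L).map (fun k => k v) {x} := by
    rw [Measure.map_apply (measurable_pi_apply v) (measurableSet_singleton x)]
    rfl
  rw [h2, h, PMF.toMeasure_apply_singleton _ _ (measurableSet_singleton x),
    PMF.uniformOfFintype_apply]
  simp

/-- The expected value of `f` of the bound. -/
noncomputable def ex (L : ℕ) [NeZero L] (a : ℕ → Option (Fin d)) (f : ℕ → ℕ) (J : ℕ)
    (v : Vert d) : ℝ≥0∞ :=
  ∫⁻ k : Vert d → Fin L, (f (Bd (shifted a k) J v) : ℝ≥0∞) ∂(shiftLaw d L)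

theorem measurable_cast_Bd (a : ℕ → Option (Fin d)) (J : ℕ) (v : Vert d) (φ : ℕ → ℝ≥0∞) :
    Measurable fun k : Vert d → Fin L => φ (Bd (shifted a k) J v) :=
  (measurable_of_countable φ).comp (measurable_Bd a J v)

/-- The key inequality. -/
theorem sum_ex_le {f : ℕ → ℕ}
    (hf : ∀ U, ∑ k : Fin L, ∑ i, f (ch a k i U) ≤ (L - 1) * f U) (J : ℕ) (v : Vert d) :
    ∑ i, ex L a f J (i :: v) ≤ ((L - 1 : ℕ) : ℝ≥0∞) / L * ex L a f J v := by
  set g : Fin L → ℕ → ℕ := fun x U => ∑ i, f (ch a x i U) with hg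
  have h1 : ∑ i, ex L a f J (i :: v) =
      ∫⁻ k : Vert d → Fin L, (g (k v) (Bd (shifted a k) J v) : ℝ≥0∞) ∂(shiftLaw d L) := by
    unfold ex
    rw [← lintegral_finsetSum _ fun i _ => measurable_cast_Bd a J (i :: v) fun n => (f n : ℝ≥0∞)]
    refine lintegral_congr fun k => ?_
    simp only [hg, Bd_cons]
    push_cast
    rfl
  have h2 : ∀ k : Vert d → Fin L, (g (k v) (Bd (shifted a k) J v) : ℝ≥0∞) =
      ∑ x : Fin L, Set.indicator {k : Vert d → Fin L | k v = x} (fun _ => (1 : ℝ≥0∞)) k *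
        (g x (Bd (shifted a k) J v) : ℝ≥0∞) := by
    intro k
    rw [Finset.sum_eq_single (k v)]
    · simp
    · intro x _ hx
      simp [Ne.symm hx]
    · simp
  have h3 : ∀ x : Fin L, ∫⁻ k : Vert d → Fin L,
      Set.indicator {k : Vert d → Fin L | k v = x} (fun _ => (1 : ℝ≥0∞)) k *
      (g x (Bd (shifted a k) J v) : ℝ≥0∞) ∂(shiftLaw d L) =
      (L : ℝ≥0∞)⁻¹ * ∫⁻ k : Vert d → Fin L, (g x (Bd (shifted a k) J v) : ℝ≥0∞) ∂(shiftLaw d L) := by
    intro x
    have hi : IndepFun (fun k : Vert d → Fin L =>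
        Set.indicator {k : Vert d → Fin L | k v = x} (fun _ => (1 : ℝ≥0∞)) k)
        (fun k => (g x (Bd (shifted a k) J v) : ℝ≥0∞)) (shiftLaw d L) := by
      have h4 := (indep_Bd a J v).symm.comp
        (φ := fun y : Fin L => Set.indicator {x} (fun _ => (1 : ℝ≥0∞)) y)
        (ψ := fun n : ℕ => (g x n : ℝ≥0∞)) (measurable_of_countable _) (measurable_of_countable _)
      exact h4
    have hm : Measurable fun k : Vert d → Fin L =>
        Set.indicator {k : Vert d → Fin L | k v = x} (fun _ => (1 : ℝ≥0∞)) k :=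
      measurable_const.indicator (measurableSet_shift v x)
    have h5 := lintegral_mul_eq_lintegral_mul_lintegral_of_indepFun hm
      (measurable_cast_Bd a J v fun n => (g x n : ℝ≥0∞)) hi
    refine h5.trans ?_
    congr 1
    have h8 := lintegral_indicator_one (μ := shiftLaw d L) (measurableSet_shift v x)
    exact h8.trans (prob_shift v x)
  rw [h1]
  simp only [h2]
  rw [lintegral_finsetSum' _ fun x _ => ?_]
  · simp only [h3]
    have h7 := lintegral_finsetSum (μ := shiftLaw d L) Finset.univ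
      (f := fun (x : Fin L) k => (g x (Bd (shifted a k) J v) : ℝ≥0∞))
      fun x _ => measurable_cast_Bd a J v fun n => (g x n : ℝ≥0∞)
    rw [← Finset.mul_sum, ← h7]
    have h6 : ∫⁻ k : Vert d → Fin L, ∑ x : Fin L, (g x (Bd (shifted a k) J v) : ℝ≥0∞)
        ∂(shiftLaw d L) ≤ ((L - 1 : ℕ) : ℝ≥0∞) * ex L a f J v := by
      unfold ex
      rw [← lintegral_const_mul _ (measurable_cast_Bd a J v fun n => (f n : ℝ≥0∞))]
      refine lintegral_mono fun k => ?_
      have h9 : ((∑ x : Fin L, g x (Bd (shifted a k) J v) : ℕ) : ℝ≥0∞) ≤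
          (((L - 1) * f (Bd (shifted a k) J v) : ℕ) : ℝ≥0∞) :=
        Nat.cast_le.2 (hf (Bd (shifted a k) J v))
      rw [Nat.cast_sum, Nat.cast_mul] at h9
      exact h9
    calc (L : ℝ≥0∞)⁻¹ * ∫⁻ k : Vert d → Fin L, ∑ x : Fin L,
          (g x (Bd (shifted a k) J v) : ℝ≥0∞) ∂(shiftLaw d L)
        ≤ (L : ℝ≥0∞)⁻¹ * (((L - 1 : ℕ) : ℝ≥0∞) * ex L a f J v) := by gcongr
      _ = _ := by rw [ENNReal.div_eq_inv_mul, mul_assoc]
  · exact ((measurable_const.indicator (measurableSet_shift v x)).mul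
      (measurable_cast_Bd a J v fun n => (g x n : ℝ≥0∞))).aemeasurable

/-- The vertices up to level `n`. -/
def lev (d : ℕ) : ℕ → Finset (Vert d)
  | 0 => {[]}
  | n + 1 => insert [] ((Finset.univ ×ˢ lev d n).image fun p => p.1 :: p.2)

theorem mem_lev {n : ℕ} {v : Vert d} : v ∈ lev d n ↔ v.length ≤ n := by
  induction n generalizing v with
  | zero => simp [lev]
  | succ n ih =>
    unfold lev
    rw [Finset.mem_insert, Finset.mem_image]
    cases v with
    | nil => simp
    | cons i u =>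
      simp only [reduceCtorEq, false_or, Finset.mem_product, Finset.mem_univ, true_and,
        Prod.exists, List.cons.injEq, List.length_cons, Nat.add_le_add_iff_right]
      constructor
      · rintro ⟨j, w, hw, rfl, rfl⟩
        exact ih.1 hw
      · intro h
        exact ⟨i, u, ih.2 h, rfl, rfl⟩

theorem sum_lev_le {f : ℕ → ℕ}
    (hf : ∀ U, ∑ k : Fin L, ∑ i, f (ch a k i U) ≤ (L - 1) * f U) (J n : ℕ) :
    ∑ v ∈ lev d n, ex L a f J v ≤ L * f J := by
  have hL : 1 ≤ L := Nat.one_le_iff_ne_zero.2 (NeZero.ne L)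
  have h0 : ex L a f J [] = f J := by
    have : ∀ k : Vert d → Fin L, (f (Bd (shifted a k) J []) : ℝ≥0∞) = f J := fun k => rfl
    unfold ex
    simp [this]
  have hL1 : (1 : ℝ≥0∞) ≤ L := by exact_mod_cast hL
  induction n with
  | zero =>
    unfold lev
    rw [Finset.sum_singleton, h0]
    calc (f J : ℝ≥0∞) = 1 * f J := (one_mul _).symm
      _ ≤ L * f J := by gcongr
  | succ n ih =>
    unfold lev
    rw [Finset.sum_insert (by simp), h0, Finset.sum_image (by
      intro p _ q _ h
      simp only [List.cons.injEq] at h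
      exact Prod.ext h.1 h.2), Finset.sum_product_right]
    have hLne : (L : ℝ≥0∞) ≠ 0 := by
      intro h
      rw [h] at hL1
      exact absurd hL1 (by norm_num)
    calc (f J : ℝ≥0∞) + ∑ v ∈ lev d n, ∑ i, ex L a f J (i :: v)
        ≤ f J + ∑ v ∈ lev d n, ((L - 1 : ℕ) : ℝ≥0∞) / L * ex L a f J v := by
          gcongr with v
          exact sum_ex_le hf J v
      _ = f J + ((L - 1 : ℕ) : ℝ≥0∞) / L * ∑ v ∈ lev d n, ex L a f J v := by rw [Finset.mul_sum]
      _ ≤ f J + ((L - 1 : ℕ) : ℝ≥0∞) / L * (L * f J) := by gcongr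
      _ = f J + ((L - 1 : ℕ) : ℝ≥0∞) * f J := by
          rw [← mul_assoc, ENNReal.div_mul_cancel hLne (ENNReal.natCast_ne_top L)]
      _ = ((L - 1 + 1 : ℕ) : ℝ≥0∞) * f J := by push_cast; ring
      _ = L * f J := by rw [Nat.sub_add_cancel hL]

theorem tsum_ex_le {f : ℕ → ℕ}
    (hf : ∀ U, ∑ k : Fin L, ∑ i, f (ch a k i U) ≤ (L - 1) * f U) (J : ℕ) :
    ∑' v, ex L a f J v ≤ L * f J := by
  rw [ENNReal.tsum_eq_iSup_sum]
  refine iSup_le fun s => ?_
  obtain ⟨n, hn⟩ : ∃ n, s ⊆ lev d n :=
    ⟨s.sup List.length, fun v hv => mem_lev.2 (Finset.le_sup hv)⟩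
  exact (Finset.sum_le_sum_of_subset hn).trans (sum_lev_le hf J n)

theorem ae_finite {f : ℕ → ℕ} (hf1 : ∀ U, U ≠ 0 → 1 ≤ f U)
    (hf : ∀ U, ∑ k : Fin L, ∑ i, f (ch a k i U) ≤ (L - 1) * f U) (J : ℕ) :
    ∀ᵐ k ∂(shiftLaw d L), {v | Bd (shifted a k) J v ≠ 0}.Finite := by
  have h1 : ∫⁻ k : Vert d → Fin L, ∑' v, (f (Bd (shifted a k) J v) : ℝ≥0∞) ∂(shiftLaw d L) ≠ ∞ := by
    rw [lintegral_tsum fun v => (measurable_cast_Bd a J v fun n => (f n : ℝ≥0∞)).aemeasurable]
    exact ne_top_of_le_ne_top (by finiteness) (tsum_ex_le hf J)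
  have h2 := ae_lt_top' ?_ h1
  · filter_upwards [h2] with k hk
    have h3 := ENNReal.finite_const_le_of_tsum_ne_top hk.ne (one_ne_zero)
    refine h3.subset fun v hv => ?_
    show (1 : ℝ≥0∞) ≤ (f (Bd (shifted a k) J v) : ℝ≥0∞)
    exact_mod_cast hf1 _ hv
  · exact (Measurable.tsum fun v =>
      measurable_cast_Bd a J v fun n => (f n : ℝ≥0∞)).aemeasurable

/-- **Criterion for recurrence.** -/
theorem ae_recurrent {f : ℕ → ℕ} (hf1 : ∀ U, U ≠ 0 → 1 ≤ f U)
    (hf : ∀ U, ∑ k : Fin L, ∑ i, f (ch a k i U) ≤ (L - 1) * f U)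
    (ha : ∀ k : ℕ, Many fun n => a (n + k)) :
    ∀ᵐ k ∂(shiftLaw d L), Recurrent (shifted a k) := by
  have h : ∀ᵐ k ∂(shiftLaw d L), ∀ J, {v | Bd (shifted a k) J v ≠ 0}.Finite :=
    ae_all_iff.2 (ae_finite hf1 hf)
  filter_upwards [h] with k hk
  exact recurrent_of_finite (fun v => ha (k v)) hk

end Q294.Rotor
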