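import Pool.Agent.Q294.Rotor.Gen

/-!
# The period words `0 1 2 0 3 4 0 …`
-/

set_option autoImplicit false

namespace Q294.Rotor

open MeasureTheory Filter ProbabilityTheory
open scoped ENNReal

/-- The period. -/
def per (d : ℕ) : ℕ := (3 * d + 2) / 2

/-- The rotor sequence with the period word `0 1 2 0 3 4 0 … ` of length `per d`, in which every
child appears once. -/
def sq (d n : ℕ) : Option (Fin d) :=
  if (n % per d) % 3 = 0 then none
  else if h : 2 * ((n % per d) / 3) + ((n % per d) % 3 - 1) < d then
    some ⟨2 * ((n % per d) / 3) + ((n % per d) % 3 - 1), h⟩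
  else none

/-- The position of the child `i` in the period word. -/
def at_ (i : ℕ) : ℕ := 3 * (i / 2) + i % 2 + 1

theorem at_lt {d i : ℕ} (h : i < d) : at_ i < per d := by
  unfold at_ per; omega

theorem per_pos (d : ℕ) : 0 < per d := by unfold per; omega

theorem sq_none {d : ℕ} (n : ℕ) : sq d n = none ↔ (n % per d) % 3 = 0 := by
  have h1 := Nat.mod_lt n (per_pos d)
  unfold sq
  generalize n % per d = p at h1
  unfold per at h1
  split_ifs with h2 h3
  · simp [h2]
  · simp [h2]
  · exfalso; omega

theorem sq_some {d : ℕ} (i : Fin d) (n : ℕ) : sq d n = some i ↔ n % per d = at_ i := by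
  have h1 := Nat.mod_lt n (per_pos d)
  have hi := i.2
  unfold sq
  generalize n % per d = p at h1
  unfold per at h1
  split_ifs with h2 h3
  · simp only [reduceCtorEq, false_iff]
    unfold at_; omega
  · rw [Option.some.injEq, Fin.ext_iff]
    show 2 * (p / 3) + (p % 3 - 1) = i ↔ p = at_ i
    unfold at_; omega
  · simp only [reduceCtorEq, false_iff]
    unfold at_; omega

theorem sq_periodic (d n : ℕ) : sq d (n + per d) = sq d n := by
  unfold sq
  rw [Nat.add_mod_right]

theorem sq_nonDegenerate (d : ℕ) : NonDegenerate (sq d) := by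
  intro r
  rw [frequently_atTop]
  intro N
  have hp := per_pos d
  have key : ∀ s < per d, (per d * N + s) % per d = s := fun s hs => by
    rw [Nat.mul_add_mod, Nat.mod_eq_of_lt hs]
  have hge : ∀ s, N ≤ per d * N + s := fun s =>
    (Nat.le_mul_of_pos_left N hp).trans (Nat.le_add_right _ _)
  cases r with
  | none =>
    refine ⟨per d * N + 0, hge 0, ?_⟩
    rw [sq_none, key 0 hp]
  | some i =>
    refine ⟨per d * N + at_ i, hge _, ?_⟩
    rw [sq_some, key _ (at_lt i.2)]

/-! ### Counting in periodic sequences -/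

theorem count_window {P : ℕ → Prop} [DecidablePred P] {L : ℕ} (hP : Function.Periodic P L)
    (s : ℕ) : Nat.count (fun j => P (s + j)) L = Nat.count P L := by
  have h1 := Nat.filter_Ico_card_eq_of_periodic s L P hP
  rw [← h1, Nat.count_eq_card_filter_range]
  refine Finset.card_bij (fun j _ => s + j) ?_ ?_ ?_
  · intro j hj
    rw [Finset.mem_filter, Finset.mem_range] at hj
    rw [Finset.mem_filter, Finset.mem_Ico]
    exact ⟨by omega, hj.2⟩
  · intro j _ j' _ h
    omega
  · intro m hm
    rw [Finset.mem_filter, Finset.mem_Ico] at hm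
    refine ⟨m - s, ?_, by omega⟩
    rw [Finset.mem_filter, Finset.mem_range]
    refine ⟨by omega, ?_⟩
    rw [show s + (m - s) = m by omega]
    exact hm.2

theorem count_add_period {P : ℕ → Prop} [DecidablePred P] {L : ℕ} (hP : Function.Periodic P L)
    (k q : ℕ) : Nat.count (fun m => P (m + k)) (q + L) =
      Nat.count (fun m => P (m + k)) q + Nat.count P L := by
  rw [Nat.count_add]
  congr 1
  have h : (fun j => P (q + j + k)) = fun j => P ((q + k) + j) := by
    funext j
    rw [show q + j + k = q + k + j by ring]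
  have h2 := count_window hP (q + k)
  rw [← h2]
  congr

variable {d : ℕ}

/-- The number of zeros among the first `q` rotors after a shift by `k`. -/
def Z (d k q : ℕ) : ℕ := Nat.count (fun m => ((m + k) % per d) % 3 = 0) q

/-- The number of pointers to the child `i` among the first `q` rotors after a shift by `k`. -/
def C (d k i q : ℕ) : ℕ := Nat.count (fun m => (m + k) % per d = at_ i) q

theorem zc_eq (k q : ℕ) : zc (fun n => sq d (n + k)) q = Z d k q := by
  unfold zc Z
  simp only [sq_none]

theorem oc_eq (k : ℕ) (i : Fin d) (q : ℕ) : oc (fun n => sq d (n + k)) i q = C d k i q := by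
  unfold oc C
  simp only [sq_some]

theorem Z_add (d k q : ℕ) : Z d k (q + per d) =
    Z d k q + Nat.count (fun m => (m % per d) % 3 = 0) (per d) := by
  unfold Z
  exact count_add_period (P := fun m => (m % per d) % 3 = 0)
    (fun m => by simp only [Nat.add_mod_right]) k q

theorem C_add (d k i q : ℕ) : C d k i (q + per d) =
    C d k i q + Nat.count (fun m => m % per d = at_ i) (per d) := by
  unfold C
  exact count_add_period (P := fun m => m % per d = at_ i)
    (fun m => by simp only [Nat.add_mod_right]) k q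

theorem C_le_one (d k i : ℕ) {q : ℕ} (hq : q ≤ per d) : C d k i q ≤ 1 := by
  unfold C
  rw [Nat.count_eq_card_filter_range, Finset.card_le_one]
  intro m hm m' hm'
  rw [Finset.mem_filter, Finset.mem_range] at hm hm'
  have h1 : m + k ≡ m' + k [MOD per d] := hm.2.trans hm'.2.symm
  have h2 : m ≡ m' [MOD per d] := Nat.ModEq.add_right_cancel' k h1
  exact h2.eq_of_lt_of_lt (by omega) (by omega)

theorem C_add_le (d k i q : ℕ) : C d k i (q + per d) ≤ C d k i q + 1 := by
  rw [C_add]
  have := C_le_one d 0 i (le_refl (per d))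
  unfold C at this
  simp only [Nat.add_zero] at this
  omega

theorem two_le_zeros {d : ℕ} (hd : 2 ≤ d) :
    2 ≤ Nat.count (fun m => (m % per d) % 3 = 0) (per d) := by
  rw [Nat.count_eq_card_filter_range]
  have hp : 4 ≤ per d := by unfold per; omega
  have h1 : ({0, 3} : Finset ℕ) ⊆ (Finset.range (per d)).filter fun m => (m % per d) % 3 = 0 := by
    intro m hm
    rw [Finset.mem_insert, Finset.mem_singleton] at hm
    rw [Finset.mem_filter, Finset.mem_range]
    rcases hm with rfl | rfl
    · exact ⟨by omega, by simp⟩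
    · refine ⟨by omega, ?_⟩
      rw [Nat.mod_eq_of_lt (show 3 < per d by omega)]
  exact Finset.card_le_card h1

/-- Between two pointers to the same child there are at least two zeros. -/
theorem two_mul_le (hd : 2 ≤ d) (k i q : ℕ) : 2 * (C d k i q - 1) ≤ Z d k q := by
  induction q using Nat.strong_induction_on with
  | _ q ih =>
    rcases Nat.lt_or_ge q (per d) with h | h
    · have := C_le_one d k i h.le
      omega
    · obtain ⟨r, rfl⟩ : ∃ r, q = r + per d := ⟨q - per d, by omega⟩
      have h1 := ih r (by have := per_pos d; omega)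
      have h2 := C_add_le d k i r
      rw [Z_add]
      have h3 := two_le_zeros hd
      omega

theorem many_sq (hd : 2 ≤ d) (k : ℕ) : Many fun n => sq d (n + k) := by
  intro U
  refine ⟨per d * U, ?_⟩
  rw [zc_eq]
  induction U with
  | zero => exact Nat.zero_le _
  | succ U ih =>
    rw [Nat.mul_succ, Z_add]
    have h3 := two_le_zeros hd
    omega

theorem ch_zero (k : ℕ) (i : Fin d) : ch (sq d) k i 0 = 0 := by
  unfold ch
  rw [idx_zero]
  simp [oc]

/-- The symbol before the index of the `U`-th zero is a zero. -/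
theorem ch_eq (hd : 2 ≤ d) (k : ℕ) (i : Fin d) {U : ℕ} (hU : 1 ≤ U) :
    ∃ q, ch (sq d) k i U = C d k i q ∧ Z d k q = U - 1 := by
  have hm := many_sq hd k
  have h1 := zc_idx hm U
  have h2 : idx (fun n => sq d (n + k)) U ≠ 0 := by
    intro h
    rw [h] at h1
    simp [zc] at h1
    omega
  obtain ⟨q, hq⟩ : ∃ q, idx (fun n => sq d (n + k)) U = q + 1 :=
    Nat.exists_eq_succ_of_ne_zero h2
  have h3 : ¬ U ≤ zc (fun n => sq d (n + k)) q := fun h => by
    have := idx_le h
    omega
  rw [hq, zc_succ] at h1
  have h4 : sq d (q + k) = none := by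
    by_contra hne
    rw [if_neg hne] at h1
    omega
  rw [if_pos h4] at h1
  refine ⟨q, ?_, ?_⟩
  · unfold ch
    rw [hq, oc_succ, if_neg (by rw [h4]; simp), add_zero, oc_eq]
  · rw [← zc_eq]; omega

theorem ch_le (hd : 2 ≤ d) (k : ℕ) (i : Fin d) {U : ℕ} (hU : 1 ≤ U) :
    ch (sq d) k i U ≤ (U - 1) / 2 + 1 := by
  obtain ⟨q, hq, hZ⟩ := ch_eq hd k i hU
  have := two_mul_le hd k i q
  omega

/-- The number of pointers to children before the first zero. -/
def h1 (L k : ℕ) : ℕ :=
  if k % 3 = 0 then 0 else if k % 3 = 2 then 1 else if k + 1 = L then 1 else 2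

theorem idx_one_le {k : ℕ} (hk : k < per d) :
    idx (fun n => sq d (n + k)) 1 ≤ 1 + h1 (per d) k := by
  refine idx_le ?_
  rw [zc_eq]
  have hz : ((h1 (per d) k + k) % per d) % 3 = 0 := by
    unfold h1
    split_ifs with h2 h3 h4
    · rw [Nat.zero_add, Nat.mod_eq_of_lt hk]; exact h2
    · rcases Nat.lt_or_ge (1 + k) (per d) with h | h
      · rw [Nat.mod_eq_of_lt h]; omega
      · rw [show 1 + k = per d by omega, Nat.mod_self]
    · rw [show 1 + k = per d by omega, Nat.mod_self]
    · rcases Nat.lt_or_ge (2 + k) (per d) with h | h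
      · rw [Nat.mod_eq_of_lt h]; omega
      · rw [show 2 + k = per d by omega, Nat.mod_self]
  unfold Z
  rw [Nat.add_comm 1, Nat.count_succ, if_pos hz]
  omega

theorem sum_h1 (d : ℕ) : ∑ k ∈ Finset.range (per d), h1 (per d) k ≤ per d - 1 := by
  have key : ∀ n, ∑ k ∈ Finset.range n, (if k % 3 = 0 then 0 else if k % 3 = 2 then 1 else 2) =
      3 * (n / 3) + if n % 3 = 2 then 2 else 0 := by
    intro n
    induction n with
    | zero => simp
    | succ n ih =>
      rw [Finset.sum_range_succ, ih]
      split_ifs <;> omega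
  obtain ⟨n, hn⟩ : ∃ n, per d = n + 1 := ⟨per d - 1, by have := per_pos d; omega⟩
  rw [hn, Finset.sum_range_succ]
  have h2 : ∑ k ∈ Finset.range n, h1 (n + 1) k =
      ∑ k ∈ Finset.range n, (if k % 3 = 0 then 0 else if k % 3 = 2 then 1 else 2) := by
    refine Finset.sum_congr rfl fun k hk => ?_
    rw [Finset.mem_range] at hk
    unfold h1
    rw [if_neg (show ¬ k + 1 = n + 1 by omega)]
  rw [h2, key]
  have hp : per d % 3 ≠ 0 := by unfold per; omega
  rw [hn] at hp
  unfold h1
  split_ifs <;> omega

/-- The weight function. -/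
def fw (d U : ℕ) : ℕ := if U = 0 then 0 else (2 * d) ^ U

theorem fw_le (hd : 2 ≤ d) {U V : ℕ} (h : U ≤ V) : fw d U ≤ (2 * d) ^ V := by
  unfold fw
  split_ifs
  · exact Nat.zero_le _
  · exact Nat.pow_le_pow_right (by omega) h

theorem sum_fw (hd : 2 ≤ d) (U : ℕ) :
    ∑ k : Fin (per d), ∑ i, fw d (ch (sq d) k i U) ≤ (per d - 1) * fw d U := by
  have hp : 4 ≤ per d := by unfold per; omega
  rcases Nat.eq_zero_or_pos U with h0 | h0
  · subst h0
    simp only [ch_zero]
    simp [fw]
  · rcases Nat.eq_or_lt_of_le (Nat.succ_le_of_lt h0) with h | h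
    · -- `U = 1`
      have hU : U = 1 := h.symm
      subst hU
      have h2 : ∀ k : Fin (per d), ∑ i, fw d (ch (sq d) k i 1) ≤ 2 * d * h1 (per d) k := by
        intro k
        have h3 : ∀ i : Fin d, fw d (ch (sq d) k i 1) = 2 * d * ch (sq d) k i 1 := by
          intro i
          have h4 := ch_le hd k i (le_refl 1)
          simp only [Nat.sub_self, Nat.zero_div, Nat.zero_add] at h4
          unfold fw
          rcases Nat.eq_zero_or_pos (ch (sq d) k i 1) with h5 | h5
          · rw [h5]; simp
          · rw [show ch (sq d) k i 1 = 1 by omega]; simp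
        simp only [h3]
        rw [← Finset.mul_sum]
        refine Nat.mul_le_mul_left _ ?_
        have h5 := zc_add_sum (fun n => sq d (n + k)) (idx (fun n => sq d (n + k)) 1)
        rw [zc_idx (many_sq hd k)] at h5
        have h6 := idx_one_le k.2
        have h7 : ∑ i, ch (sq d) k i 1 =
            ∑ i, oc (fun n => sq d (n + k)) i (idx (fun n => sq d (n + k)) 1) := rfl
        rw [h7]
        omega
      calc ∑ k : Fin (per d), ∑ i, fw d (ch (sq d) k i 1)
          ≤ ∑ k : Fin (per d), 2 * d * h1 (per d) k := Finset.sum_le_sum fun k _ => h2 k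
        _ = 2 * d * ∑ k ∈ Finset.range (per d), h1 (per d) k := by
            rw [Finset.mul_sum, Finset.sum_range]
        _ ≤ 2 * d * (per d - 1) := Nat.mul_le_mul_left _ (sum_h1 d)
        _ = (per d - 1) * fw d 1 := by unfold fw; simp; ring
    · -- `U ≥ 2`
      have hU : 2 ≤ U := h
      have h2 : ∀ (k : Fin (per d)) (i : Fin d), fw d (ch (sq d) k i U) ≤ (2 * d) ^ (U - 1) := by
        intro k i
        refine fw_le hd ?_
        have := ch_le hd k i h0
        omega
      calc ∑ k : Fin (per d), ∑ i, fw d (ch (sq d) k i U)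
          ≤ ∑ _k : Fin (per d), ∑ _i : Fin d, (2 * d) ^ (U - 1) :=
            Finset.sum_le_sum fun k _ => Finset.sum_le_sum fun i _ => h2 k i
        _ = per d * (d * (2 * d) ^ (U - 1)) := by simp
        _ ≤ (2 * (per d - 1)) * (d * (2 * d) ^ (U - 1)) := Nat.mul_le_mul_right _ (by omega)
        _ = (per d - 1) * ((2 * d) ^ (U - 1) * (2 * d)) := by ring
        _ = (per d - 1) * fw d U := by
            rw [← pow_succ, Nat.sub_add_cancel h0]
            unfold fw
            rw [if_neg (by omega)]

instance (d : ℕ) : NeZero (per d) := ⟨(per_pos d).ne'⟩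

theorem ae_recurrent_sq (hd : 2 ≤ d) :
    ∀ᵐ k ∂(shiftLaw d (per d)), Recurrent (shifted (sq d) k) := by
  refine ae_recurrent (f := fw d) (fun U hU => ?_) (sum_fw hd) (many_sq hd)
  unfold fw
  rw [if_neg hU]
  exact Nat.one_le_pow _ _ (by omega)

end Q294.Rotor
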